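import Mathlib

/-!
Three players, father F, mother M and son S, play a tournament of two-person games; the winner of a
game next plays the player who sat out, and the first player with `N` game wins wins the tournament.
We show that for every `N`, if `b ≤ a` and `c < 1/2`, playing the mother first is optimal for the
father.

Idea: the player who sits out performs a walk on a triangle, and a player wins a game exactly when
the walk crosses the edge opposite to that player.  This gives a closed form for the winning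
probability of the father, in which the difference of the two relevant starting points can be paired
into nonnegative terms.
-/

namespace Pool.Agent.Results.MP_582e6d_pr.MotherFirst

/-- The three possible pairings of a game. -/
inductive Pairing
  | FM
  | FS
  | MS
  deriving DecidableEq

open Pairing

instance : Fintype Pairing where
  elems := {FM, FS, MS}
  complete := by intro x; cases x <;> simp

/-- Probability that the first named player of a pairing wins the game:
`a` for father against mother, `b` for father against son, `c` for mother against son. -/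
def firstWins (a b c : ℝ) : Pairing → ℝ
  | FM => a
  | FS => b
  | MS => c

/-- `fatherWins n ω f m s X`: the tournament in which the three players still need `f`, `m`, `s`
game wins and the next game has the pairing `X` is won by the father, when the results are read off
from the table `ω` with `n` rows: the `g`-th game, if it has pairing `Y`, is won by the first named
player of `Y` iff `ω g Y = true`.  The winner next plays the player who sat out. -/
def fatherWins : (n : ℕ) → (Fin n → Pairing → Bool) → ℕ → ℕ → ℕ → Pairing → Bool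
  | _, _, _, 0, _, _ => false
  | _, _, _, _ + 1, 0, _ => false
  | _, _, 0, _ + 1, _ + 1, _ => true
  | 0, _, _ + 1, _ + 1, _ + 1, _ => false
  | n + 1, ω, f + 1, m + 1, s + 1, FM =>
      if ω 0 FM then fatherWins n (fun i => ω i.succ) f (m + 1) (s + 1) FS
      else fatherWins n (fun i => ω i.succ) (f + 1) m (s + 1) MS
  | n + 1, ω, f + 1, m + 1, s + 1, FS =>
      if ω 0 FS then fatherWins n (fun i => ω i.succ) f (m + 1) (s + 1) FM
      else fatherWins n (fun i => ω i.succ) (f + 1) (m + 1) s MS
  | n + 1, ω, f + 1, m + 1, s + 1, MS =>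
      if ω 0 MS then fatherWins n (fun i => ω i.succ) (f + 1) m (s + 1) FM
      else fatherWins n (fun i => ω i.succ) (f + 1) (m + 1) s FS

/-- Probability of a table of results when all its entries are independent. -/
noncomputable def tableProb (a b c : ℝ) {n : ℕ} (ω : Fin n → Pairing → Bool) : ℝ :=
  ∏ g, ∏ Y, if ω g Y then firstWins a b c Y else 1 - firstWins a b c Y

/-- `P_N(X; a, b, c)`: the probability that the father wins the first-to-`N` tournament when the
first game has the pairing `X`. -/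
noncomputable def fatherProb (N : ℕ) (X : Pairing) (a b c : ℝ) : ℝ :=
  ∑ ω : Fin (3 * N) → Pairing → Bool,
    tableProb a b c ω * (if fatherWins (3 * N) ω N N N X then 1 else 0)

/-! ### First step analysis -/

/-- value function with fuel -/
noncomputable def U (a b c : ℝ) : ℕ → ℕ → ℕ → ℕ → Pairing → ℝ
  | _, _, 0, _, _ => 0
  | _, _, _ + 1, 0, _ => 0
  | _, 0, _ + 1, _ + 1, _ => 1
  | 0, _ + 1, _ + 1, _ + 1, _ => 0
  | n + 1, f + 1, m + 1, s + 1, FM =>
      a * U a b c n f (m + 1) (s + 1) FS + (1 - a) * U a b c n (f + 1) m (s + 1) MS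
  | n + 1, f + 1, m + 1, s + 1, FS =>
      b * U a b c n f (m + 1) (s + 1) FM + (1 - b) * U a b c n (f + 1) (m + 1) s MS
  | n + 1, f + 1, m + 1, s + 1, MS =>
      c * U a b c n (f + 1) m (s + 1) FM + (1 - c) * U a b c n (f + 1) (m + 1) s FS

/-- weight of a row -/
noncomputable def rowProb (a b c : ℝ) (x : Pairing → Bool) : ℝ :=
  ∏ Y, if x Y then firstWins a b c Y else 1 - firstWins a b c Y

lemma univ_pairing : (Finset.univ : Finset Pairing) = {FM, FS, MS} := rfl

lemma rowProb_eq (a b c : ℝ) (x : Pairing → Bool) :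
    rowProb a b c x = (if x FM then a else 1 - a) * ((if x FS then b else 1 - b) *
      (if x MS then c else 1 - c)) := by
  rw [rowProb, univ_pairing]
  rw [Finset.prod_insert (by simp), Finset.prod_insert (by simp), Finset.prod_singleton]
  simp [firstWins]

/-- rows as triples of bits -/
def rowEquiv : (Pairing → Bool) ≃ Bool × Bool × Bool where
  toFun x := (x FM, x FS, x MS)
  invFun t := fun Y => match Y with
    | FM => t.1
    | FS => t.2.1
    | MS => t.2.2
  left_inv x := by funext Y; cases Y <;> rfl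
  right_inv t := rfl

lemma sum_row (a b c : ℝ) (F : Bool × Bool × Bool → ℝ) :
    ∑ x : Pairing → Bool, rowProb a b c x * F (rowEquiv x)
      = ∑ t : Bool × Bool × Bool, (if t.1 then a else 1 - a) * ((if t.2.1 then b else 1 - b) *
      (if t.2.2 then c else 1 - c)) * F t := by
  rw [← Equiv.sum_comp rowEquiv]
  refine Finset.sum_congr rfl fun x _ => ?_
  rw [rowProb_eq]; rfl

lemma sum_row_FM (a b c : ℝ) (F : Bool → ℝ) :
    ∑ x : Pairing → Bool, rowProb a b c x * F (x FM) = a * F true + (1 - a) * F false := by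
  have := sum_row a b c (fun t => F t.1)
  simp only [rowEquiv, Equiv.coe_fn_mk] at this
  rw [this]
  simp only [Fintype.sum_prod_type, Fintype.sum_bool]
  simp
  ring

lemma sum_row_FS (a b c : ℝ) (F : Bool → ℝ) :
    ∑ x : Pairing → Bool, rowProb a b c x * F (x FS) = b * F true + (1 - b) * F false := by
  have := sum_row a b c (fun t => F t.2.1)
  simp only [rowEquiv, Equiv.coe_fn_mk] at this
  rw [this]
  simp only [Fintype.sum_prod_type, Fintype.sum_bool]
  simp
  ring

lemma sum_row_MS (a b c : ℝ) (F : Bool → ℝ) :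
    ∑ x : Pairing → Bool, rowProb a b c x * F (x MS) = c * F true + (1 - c) * F false := by
  have := sum_row a b c (fun t => F t.2.2)
  simp only [rowEquiv, Equiv.coe_fn_mk] at this
  rw [this]
  simp only [Fintype.sum_prod_type, Fintype.sum_bool]
  simp
  ring

lemma sum_row_one (a b c : ℝ) : ∑ x : Pairing → Bool, rowProb a b c x = 1 := by
  have := sum_row_FM a b c (fun _ => 1)
  simpa using this

lemma sum_cons (a b c : ℝ) (n : ℕ) (H : (Fin (n + 1) → Pairing → Bool) → ℝ) :
    ∑ ω : Fin (n + 1) → Pairing → Bool, tableProb a b c ω * H ω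
      = ∑ x : Pairing → Bool, rowProb a b c x *
          ∑ ω : Fin n → Pairing → Bool, tableProb a b c ω * H (Fin.cons x ω) := by
  rw [← Equiv.sum_comp (Fin.consEquiv (fun _ => Pairing → Bool)), Fintype.sum_prod_type]
  refine Finset.sum_congr rfl fun x _ => ?_
  rw [Finset.mul_sum]
  refine Finset.sum_congr rfl fun ω _ => ?_
  simp only [Fin.consEquiv, Equiv.coe_fn_mk, tableProb, rowProb, Fin.prod_univ_succ, Fin.cons_zero,
    Fin.cons_succ]
  ring

lemma total (a b c : ℝ) : ∀ n : ℕ, ∑ ω : Fin n → Pairing → Bool, tableProb a b c ω = 1 := by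
  intro n
  induction n with
  | zero => simp [tableProb]
  | succ n ih =>
    have h := sum_cons a b c n (fun _ => 1)
    simp only [mul_one] at h
    rw [h, ih]
    simpa using sum_row_one a b c

lemma sum_eq_U (a b c : ℝ) : ∀ (n f m s : ℕ) (X : Pairing),
    ∑ ω : Fin n → Pairing → Bool, tableProb a b c ω * (if fatherWins n ω f m s X then 1 else 0)
      = U a b c n f m s X := by
  intro n
  induction n with
  | zero =>
    intro f m s X
    rcases m with _ | m
    · simp [fatherWins, U]
    rcases s with _ | s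
    · simp [fatherWins, U]
    rcases f with _ | f
    · simp [fatherWins, U, tableProb]
    · simp [fatherWins, U]
  | succ n ih =>
    intro f m s X
    rcases m with _ | m
    · simp [fatherWins, U]
    rcases s with _ | s
    · simp [fatherWins, U]
    rcases f with _ | f
    · simp [fatherWins, U, total]
    · rw [sum_cons]
      cases X with
      | FM =>
        have h := sum_row_FM a b c (fun t =>
          ∑ ω : Fin n → Pairing → Bool, tableProb a b c ω *
            (if (if t then fatherWins n ω f (m + 1) (s + 1) FS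
              else fatherWins n ω (f + 1) m (s + 1) MS) then 1 else 0))
        simp only [fatherWins, Fin.cons_zero, Fin.cons_succ]
        rw [h]
        simp only [if_true, Bool.false_eq_true, if_false, ih, U]
      | FS =>
        have h := sum_row_FS a b c (fun t =>
          ∑ ω : Fin n → Pairing → Bool, tableProb a b c ω *
            (if (if t then fatherWins n ω f (m + 1) (s + 1) FM
              else fatherWins n ω (f + 1) (m + 1) s MS) then 1 else 0))
        simp only [fatherWins, Fin.cons_zero, Fin.cons_succ]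
        rw [h]
        simp only [if_true, Bool.false_eq_true, if_false, ih, U]
      | MS =>
        have h := sum_row_MS a b c (fun t =>
          ∑ ω : Fin n → Pairing → Bool, tableProb a b c ω *
            (if (if t then fatherWins n ω (f + 1) m (s + 1) FM
              else fatherWins n ω (f + 1) (m + 1) s FS) then 1 else 0))
        simp only [fatherWins, Fin.cons_zero, Fin.cons_succ]
        rw [h]
        simp only [if_true, Bool.false_eq_true, if_false, ih, U]

/-! ### Monotonicity -/

lemma U_nonneg {a b c : ℝ} (ha : 0 ≤ a) (ha1 : a ≤ 1) (hb : 0 ≤ b) (hb1 : b ≤ 1) (hc : 0 ≤ c)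
    (hc1 : c ≤ 1) : ∀ (n f m s : ℕ) (X : Pairing), 0 ≤ U a b c n f m s X := by
  intro n
  induction n with
  | zero =>
    intro f m s X
    rcases m with _ | m
    · simp [U]
    rcases s with _ | s
    · simp [U]
    rcases f with _ | f <;> simp [U]
  | succ n ih =>
    intro f m s X
    rcases m with _ | m
    · simp [U]
    rcases s with _ | s
    · simp [U]
    rcases f with _ | f
    · simp [U]
    · cases X <;> simp only [U] <;>
        refine add_nonneg (mul_nonneg ?_ (ih _ _ _ _)) (mul_nonneg ?_ (ih _ _ _ _)) <;> linarith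

lemma U_mono_m {a b c : ℝ} (ha : 0 ≤ a) (ha1 : a ≤ 1) (hb : 0 ≤ b) (hb1 : b ≤ 1) (hc : 0 ≤ c)
    (hc1 : c ≤ 1) : ∀ (n f m s : ℕ) (X : Pairing), U a b c n f m s X ≤ U a b c n f (m + 1) s X := by
  intro n
  induction n with
  | zero =>
    intro f m s X
    rcases m with _ | m
    · simpa [U] using U_nonneg ha ha1 hb hb1 hc hc1 0 f 1 s X
    rcases s with _ | s
    · simp [U]
    rcases f with _ | f <;> simp [U]
  | succ n ih =>
    intro f m s X
    rcases m with _ | m
    · simpa [U] using U_nonneg ha ha1 hb hb1 hc hc1 (n + 1) f 1 s X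
    rcases s with _ | s
    · simp [U]
    rcases f with _ | f
    · simp [U]
    · cases X <;> simp only [U] <;>
        refine add_le_add (mul_le_mul_of_nonneg_left (ih _ _ _ _) ?_)
          (mul_le_mul_of_nonneg_left (ih _ _ _ _) ?_) <;> linarith

lemma U_mono_s {a b c : ℝ} (ha : 0 ≤ a) (ha1 : a ≤ 1) (hb : 0 ≤ b) (hb1 : b ≤ 1) (hc : 0 ≤ c)
    (hc1 : c ≤ 1) : ∀ (n f m s : ℕ) (X : Pairing), U a b c n f m s X ≤ U a b c n f m (s + 1) X := by
  intro n
  induction n with
  | zero =>
    intro f m s X
    rcases m with _ | m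
    · simp [U]
    rcases s with _ | s
    · simpa [U] using U_nonneg ha ha1 hb hb1 hc hc1 0 f (m + 1) 1 X
    rcases f with _ | f <;> simp [U]
  | succ n ih =>
    intro f m s X
    rcases m with _ | m
    · simp [U]
    rcases s with _ | s
    · simpa [U] using U_nonneg ha ha1 hb hb1 hc hc1 (n + 1) f (m + 1) 1 X
    rcases f with _ | f
    · simp [U]
    · cases X <;> simp only [U] <;>
        refine add_le_add (mul_le_mul_of_nonneg_left (ih _ _ _ _) ?_)
          (mul_le_mul_of_nonneg_left (ih _ _ _ _) ?_) <;> linarith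

/-! ### Closed form -/

/-- Total weight of the sequences of `T` switches that alternate between the two positions, the
last of which is a win of the father, with `j` switches through the father's corner. -/
noncomputable def cf : ℝ → ℝ → ℝ → ℝ → ℕ → ℕ → ℝ
  | _, _, _, _, 0, 0 => 1
  | _, _, _, _, 0, _ + 1 => 0
  | a, _, _, _, 1, 0 => a
  | _, _, _, _, 1, _ + 1 => 0
  | a, dS, b, dM, T + 2, 0 => a * cf b dM a dS (T + 1) 0
  | a, dS, b, dM, T + 2, j + 1 =>
      a * cf b dM a dS (T + 1) (j + 1) + dS * cf b dM a dS (T + 1) j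

/-- truncated negative binomial series -/
noncomputable def G : ℕ → ℕ → ℝ → ℝ
  | 0, 0, _ => 0
  | 0, _ + 1, _ => 1
  | n + 1, L, σ => ∑ u ∈ Finset.range L, ((n + u).choose u : ℝ) * σ ^ u

lemma G_zero_right (n : ℕ) (σ : ℝ) : G n 0 σ = 0 := by
  cases n <;> simp [G]

lemma G_succ (n L : ℕ) (σ : ℝ) :
    G (n + 1) (L + 1) σ = G (n + 1) L σ + ((n + L).choose L : ℝ) * σ ^ L := by
  simp only [G]
  rw [Finset.sum_range_succ]

lemma G_pascal' (n L : ℕ) (σ : ℝ) : G (n + 1) (L + 1) σ = G n (L + 1) σ + σ * G (n + 1) L σ := by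
  induction L with
  | zero =>
    cases n with
    | zero => simp [G]
    | succ n => simp [G]
  | succ L ih =>
    have e1 := G_succ n (L + 1) σ
    have e2 := G_succ n L σ
    cases n with
    | zero =>
      have e4 : G 0 (L + 1 + 1) σ = G 0 (L + 1) σ := by simp [G]
      have hc : ((0 + (L + 1)).choose (L + 1) : ℝ) = ((0 + L).choose L : ℝ) := by simp
      linear_combination e1 - e4 - σ * e2 + ih + σ ^ (L + 1) * hc
    | succ n =>
      have e4 := G_succ n (L + 1) σ
      have hc : ((n + 1 + (L + 1)).choose (L + 1) : ℝ)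
          = ((n + 1 + L).choose L : ℝ) + ((n + (L + 1)).choose (L + 1) : ℝ) := by
        have := Nat.choose_succ_succ (n + 1 + L) L
        have h2 : n + 1 + (L + 1) = (n + 1 + L).succ := rfl
        rw [h2, this]
        push_cast
        have h3 : n + (L + 1) = n + 1 + L := by ring
        rw [h3]
      linear_combination e1 - e4 - σ * e2 + ih + σ ^ (L + 1) * hc

lemma G_pascal (n L : ℕ) (σ : ℝ) : G (n + 1) L σ = G n L σ + σ * G (n + 1) (L - 1) σ := by
  cases L with
  | zero => simp [G_zero_right]
  | succ L => simpa using G_pascal' n L σ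

lemma cf_vanish : ∀ (j k : ℕ) (a dS b dM : ℝ), cf a dS b dM (j + 1) (j + 1 + k) = 0 := by
  intro j
  induction j with
  | zero =>
    intro k a dS b dM
    have : 0 + 1 + k = k + 1 := by ring
    rw [this]; simp [cf]
  | succ j ih =>
    intro k a dS b dM
    have h : j + 1 + 1 + k = (j + 1 + k) + 1 := by ring
    rw [h]
    simp only [cf]
    rw [show j + 1 + k + 1 = j + 1 + (k + 1) by ring, ih, ih]
    simp

/-- closed form -/
noncomputable def Acl (a dS b dM σ τ : ℝ) (R f m s : ℕ) : ℝ :=
  ∑ j ∈ Finset.range R, cf a dS b dM (f + j) j * G ((f + j + 1) / 2) ((m - j + 1) / 2) σ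
    * G ((f + j) / 2) ((s - j + 1) / 2) τ

lemma Acl_m_zero (a dS b dM σ τ : ℝ) (R f s : ℕ) : Acl a dS b dM σ τ R f 0 s = 0 := by
  unfold Acl
  refine Finset.sum_eq_zero fun j _ => ?_
  have : (0 - j + 1) / 2 = 0 := by omega
  rw [this, G_zero_right]; simp

lemma Acl_s_zero (a dS b dM σ τ : ℝ) (R f m : ℕ) : Acl a dS b dM σ τ R f m 0 = 0 := by
  unfold Acl
  refine Finset.sum_eq_zero fun j _ => ?_
  have : (0 - j + 1) / 2 = 0 := by omega
  rw [this, G_zero_right]; simp

lemma Acl_f_zero (a dS b dM σ τ : ℝ) (R m s : ℕ) :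
    Acl a dS b dM σ τ (R + 1) 0 (m + 1) (s + 1) = 1 := by
  unfold Acl
  rw [Finset.sum_range_succ']
  have h0 : ∑ k ∈ Finset.range R, cf a dS b dM (0 + (k + 1)) (k + 1) *
      G ((0 + (k + 1) + 1) / 2) ((m + 1 - (k + 1) + 1) / 2) σ *
      G ((0 + (k + 1)) / 2) ((s + 1 - (k + 1) + 1) / 2) τ = 0 := by
    refine Finset.sum_eq_zero fun k _ => ?_
    have := cf_vanish k 0 a dS b dM
    rw [show 0 + (k + 1) = k + 1 by ring]
    simp only [add_zero] at this
    rw [this]; simp
  rw [h0]
  have h1 : (m + 1 - 0 + 1) / 2 = m / 2 + 1 := by omega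
  have h2 : (s + 1 - 0 + 1) / 2 = s / 2 + 1 := by omega
  rw [h1, h2]
  simp [cf, G]

lemma cf_succ_zero (a dS b dM : ℝ) (T : ℕ) :
    cf a dS b dM (T + 1) 0 = a * cf b dM a dS T 0 := by
  cases T with
  | zero => simp [cf]
  | succ T => simp [cf]

lemma Acl_rec (a dS b dM σ τ : ℝ) (R f m s : ℕ) (hR : m < R + 1) :
    Acl a dS b dM σ τ (R + 1) (f + 1) (m + 1) (s + 1)
      = a * Acl b dM a dS τ σ (R + 1) f (s + 1) (m + 1)
        + σ * Acl a dS b dM σ τ (R + 1) (f + 1) (m - 1) (s + 1)
        + dS * Acl b dM a dS τ σ (R + 1) (f + 1) s m := by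
  have h1 : Acl a dS b dM σ τ (R + 1) (f + 1) (m + 1) (s + 1)
      = ∑ j ∈ Finset.range (R + 1), cf a dS b dM (f + 1 + j) j *
          G ((f + j) / 2) ((m + 1 - j + 1) / 2) σ * G ((f + j + 1) / 2) ((s + 1 - j + 1) / 2) τ
        + σ * Acl a dS b dM σ τ (R + 1) (f + 1) (m - 1) (s + 1) := by
    unfold Acl
    rw [Finset.mul_sum, ← Finset.sum_add_distrib]
    refine Finset.sum_congr rfl fun j _ => ?_
    have e1 : (f + 1 + j + 1) / 2 = (f + j) / 2 + 1 := by omega
    have e2 : (f + 1 + j) / 2 = (f + j + 1) / 2 := by omega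
    have e3 : (m + 1 - j + 1) / 2 - 1 = (m - 1 - j + 1) / 2 := by omega
    rw [e1, e2, G_pascal, e3]
    ring
  rw [h1]
  have h2 : ∑ j ∈ Finset.range (R + 1), cf a dS b dM (f + 1 + j) j *
          G ((f + j) / 2) ((m + 1 - j + 1) / 2) σ * G ((f + j + 1) / 2) ((s + 1 - j + 1) / 2) τ
      = a * Acl b dM a dS τ σ (R + 1) f (s + 1) (m + 1)
        + dS * Acl b dM a dS τ σ (R + 1) (f + 1) s m := by
    have h3 : Acl b dM a dS τ σ (R + 1) (f + 1) s m = Acl b dM a dS τ σ R (f + 1) s m := by
      unfold Acl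
      rw [Finset.sum_range_succ]
      have : (m - R + 1) / 2 = 0 := by omega
      rw [this, G_zero_right]; simp
    rw [h3]
    unfold Acl
    rw [Finset.sum_range_succ', Finset.sum_range_succ' (n := R), mul_add, Finset.mul_sum,
      Finset.mul_sum]
    have h4 : ∀ j, cf a dS b dM (f + 1 + (j + 1)) (j + 1)
        = a * cf b dM a dS (f + (j + 1)) (j + 1) + dS * cf b dM a dS (f + 1 + j) j := by
      intro j
      have : f + 1 + (j + 1) = (f + j) + 2 := by ring
      rw [this]
      simp only [cf]
      rw [show f + (j + 1) = f + j + 1 by ring, show f + 1 + j = f + j + 1 by ring]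
    have h5 : ∑ k ∈ Finset.range R, cf a dS b dM (f + 1 + (k + 1)) (k + 1) *
          G ((f + (k + 1)) / 2) ((m + 1 - (k + 1) + 1) / 2) σ *
          G ((f + (k + 1) + 1) / 2) ((s + 1 - (k + 1) + 1) / 2) τ
        = ∑ i ∈ Finset.range R, a * (cf b dM a dS (f + (i + 1)) (i + 1) *
            G ((f + (i + 1) + 1) / 2) ((s + 1 - (i + 1) + 1) / 2) τ *
            G ((f + (i + 1)) / 2) ((m + 1 - (i + 1) + 1) / 2) σ)
          + ∑ i ∈ Finset.range R, dS * (cf b dM a dS (f + 1 + i) i *
            G ((f + 1 + i + 1) / 2) ((s - i + 1) / 2) τ *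
            G ((f + 1 + i) / 2) ((m - i + 1) / 2) σ) := by
      rw [← Finset.sum_add_distrib]
      refine Finset.sum_congr rfl fun j _ => ?_
      rw [h4]
      have e1 : f + (j + 1) = f + 1 + j := by ring
      have e2 : m + 1 - (j + 1) = m - j := by omega
      have e3 : s + 1 - (j + 1) = s - j := by omega
      rw [e1, e2, e3]
      ring
    rw [h5]
    have h6 : cf a dS b dM (f + 1 + 0) 0 = a * cf b dM a dS (f + 0) 0 := by
      simpa using cf_succ_zero a dS b dM f
    rw [h6]
    ring
  rw [h2]
  ring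

lemma U_closed (a b c : ℝ) (R : ℕ) : ∀ (n f m s : ℕ), f + m + s ≤ n → m ≤ R → s ≤ R →
    (U a b c n f m s FM
      = Acl a ((1 - a) * (1 - c)) b ((1 - b) * c) ((1 - a) * c) ((1 - b) * (1 - c)) (R + 1) f m s) ∧
    (U a b c n f m s FS
      = Acl b ((1 - b) * c) a ((1 - a) * (1 - c)) ((1 - b) * (1 - c)) ((1 - a) * c) (R + 1) f s m) ∧
    (1 ≤ f → U a b c n f m s MS
      = c * Acl a ((1 - a) * (1 - c)) b ((1 - b) * c) ((1 - a) * c) ((1 - b) * (1 - c)) (R + 1)
          f (m - 1) s
        + (1 - c) * Acl b ((1 - b) * c) a ((1 - a) * (1 - c)) ((1 - b) * (1 - c)) ((1 - a) * c)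
          (R + 1) f (s - 1) m) := by
  intro n
  induction n with
  | zero =>
    intro f m s h _ _
    have hf : f = 0 := by omega
    have hm : m = 0 := by omega
    have hs : s = 0 := by omega
    subst hf; subst hm; subst hs
    refine ⟨?_, ?_, fun h => by omega⟩
    · rw [Acl_m_zero]; simp [U]
    · rw [Acl_m_zero]; simp [U]
  | succ n ih =>
    intro f m s h hm hs
    rcases m with _ | m
    · refine ⟨?_, ?_, fun _ => ?_⟩
      · rw [Acl_m_zero]; simp [U]
      · rw [Acl_s_zero]; simp [U]
      · rw [Acl_m_zero, Acl_s_zero]; simp [U]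
    rcases s with _ | s
    · refine ⟨?_, ?_, fun _ => ?_⟩
      · rw [Acl_s_zero]; simp [U]
      · rw [Acl_m_zero]; simp [U]
      · rw [Acl_s_zero, Acl_m_zero]; simp [U]
    rcases f with _ | f
    · refine ⟨?_, ?_, fun h => by omega⟩
      · rw [Acl_f_zero]; simp [U]
      · rw [Acl_f_zero]; simp [U]
    · refine ⟨?_, ?_, fun _ => ?_⟩
      · simp only [U]
        rw [(ih f (m + 1) (s + 1) (by omega) hm hs).2.1,
          (ih (f + 1) m (s + 1) (by omega) (by omega) hs).2.2 (by omega),
          Acl_rec _ _ _ _ _ _ _ _ _ _ (by omega)]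
        simp only [Nat.add_sub_cancel]
        ring
      · simp only [U]
        rw [(ih f (m + 1) (s + 1) (by omega) hm hs).1,
          (ih (f + 1) (m + 1) s (by omega) hm (by omega)).2.2 (by omega),
          Acl_rec _ _ _ _ _ _ _ _ _ _ (by omega)]
        simp only [Nat.add_sub_cancel]
        ring
      · simp only [U]
        rw [(ih (f + 1) m (s + 1) (by omega) (by omega) hs).1,
          (ih (f + 1) (m + 1) s (by omega) hm (by omega)).2.1]
        simp only [Nat.add_sub_cancel]

/-! ### Pairing of the terms of the difference -/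

lemma exists_W {a dS b dM : ℝ} (ha : 0 ≤ a) (hdS : 0 ≤ dS) (hb : 0 ≤ b) (hdM : 0 ≤ dM) :
    ∀ h : ℕ, ∃ W : ℕ → ℝ, (∀ j, 0 ≤ W j) ∧
      (∀ j, cf a dS b dM (2 * h + 1) j = a * W j) ∧
      (∀ j, cf b dM a dS (2 * h + 1) j = b * W j) := by
  intro h
  induction h with
  | zero =>
    refine ⟨fun j => if j = 0 then 1 else 0, fun j => by dsimp only; split_ifs <;> norm_num, ?_, ?_⟩
    · intro j; rcases j with _ | j <;> simp [cf]
    · intro j; rcases j with _ | j <;> simp [cf]
  | succ h ih =>
    obtain ⟨W, h0, h1, h2⟩ := ih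
    refine ⟨fun j => match j with
      | 0 => a * b * W 0
      | 1 => a * b * W 1 + (a * dM + b * dS) * W 0
      | j + 2 => a * b * W (j + 2) + (a * dM + b * dS) * W (j + 1) + dS * dM * W j, ?_, ?_, ?_⟩
    · intro j
      have := h0 0
      have := h0 1
      rcases j with _ | _ | j
      · dsimp only; positivity
      · dsimp only; positivity
      · have := h0 j
        have := h0 (j + 1)
        have := h0 (j + 2)
        dsimp only; positivity
    · intro j
      rw [show 2 * (h + 1) + 1 = 2 * h + 1 + 2 by ring]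
      have e : 2 * h + 1 + 1 = 2 * h + 2 := by ring
      rcases j with _ | _ | j
      · simp only [cf, h1]
        ring
      · simp only [cf, h1]
        ring
      · simp only [cf, h1]
        ring
    · intro j
      rw [show 2 * (h + 1) + 1 = 2 * h + 1 + 2 by ring]
      rcases j with _ | _ | j
      · simp only [cf, h2]
        ring
      · simp only [cf, h2]
        ring
      · simp only [cf, h2]
        ring

lemma cf_even_zero {a dS b dM : ℝ} (h : ℕ) :
    cf a dS b dM (2 * h + 2) 0 = cf b dM a dS (2 * h + 2) 0 := by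
  induction h with
  | zero => simp [cf]; ring
  | succ h ih =>
    have e : 2 * (h + 1) + 2 = (2 * h + 1 + 1) + 2 := by ring
    rw [e]
    simp only [cf]
    have e2 : ∀ x y z w : ℝ, cf x y z w (2 * h + 2) 0 = x * cf z w x y (2 * h + 1) 0 := by
      intro x y z w; simp [cf]
    rw [e2, e2] at ih
    linear_combination (a * b) * ih

lemma G_nonneg (n L : ℕ) {σ : ℝ} (hσ : 0 ≤ σ) : 0 ≤ G n L σ := by
  cases n with
  | zero => cases L <;> simp [G]
  | succ n => exact Finset.sum_nonneg fun u _ => by positivity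

/-- key inequality for a pair of terms -/
lemma key {a b c : ℝ} (hb : 0 ≤ b) (hba : b ≤ a) (ha1 : a ≤ 1) (hc : 0 ≤ c) (hc2 : c ≤ 1 / 2)
    (h K : ℕ) :
    0 ≤ a * G (h + 1) (K + 1) ((1 - a) * c) * G h (K + 1) ((1 - b) * (1 - c))
      - b * G (h + 1) (K + 1) ((1 - b) * (1 - c)) * G h (K + 1) ((1 - a) * c)
      + (b * ((1 - a) * (1 - c)) - a * ((1 - b) * c)) * G (h + 1) K ((1 - a) * c)
        * G (h + 1) K ((1 - b) * (1 - c)) := by
  set σ := (1 - a) * c with hσ
  set τ := (1 - b) * (1 - c) with hτ
  have hσ0 : 0 ≤ σ := mul_nonneg (by linarith) hc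
  have hτ0 : 0 ≤ τ := mul_nonneg (by linarith) (by linarith)
  have hστ : σ ≤ τ := mul_le_mul (by linarith) (by linarith) hc (by linarith)
  have hτ1 : τ ≤ 1 := by
    rw [hτ]; exact mul_le_one₀ (by linarith) (by linarith) (by linarith)
  have e1 := G_pascal' h K σ
  have e2 := G_pascal' h K τ
  have e3 := G_succ h K σ
  have e4 := G_succ h K τ
  set C : ℝ := ((h + K).choose K : ℝ) with hC
  have hC0 : 0 ≤ C := by positivity
  set g' := G (h + 1) K σ with hg'
  set k' := G (h + 1) K τ with hk'
  have hg0 : 0 ≤ g' := G_nonneg _ _ hσ0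
  have hk0 : 0 ≤ k' := G_nonneg _ _ hτ0
  have e5 : G h (K + 1) σ = (1 - σ) * g' + C * σ ^ K := by linarith
  have e6 : G h (K + 1) τ = (1 - τ) * k' + C * τ ^ K := by linarith
  rw [e3, e4, e5, e6]
  have e7 : a * (g' + C * σ ^ K) * ((1 - τ) * k' + C * τ ^ K)
      - b * (k' + C * τ ^ K) * ((1 - σ) * g' + C * σ ^ K)
      + (b * ((1 - a) * (1 - c)) - a * ((1 - b) * c)) * g' * k'
      = (a - b) * (C * τ ^ K * g' + C * σ ^ K * k' + C * σ ^ K * (C * τ ^ K))
        + b * σ * (C * τ ^ K * g') - a * τ * (C * σ ^ K * k') := by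
    rw [hσ, hτ]; ring
  rw [e7]
  rcases K with _ | K
  · have z1 : g' = 0 := by rw [hg']; exact G_zero_right _ _
    have z2 : k' = 0 := by rw [hk']; exact G_zero_right _ _
    rw [z1, z2]
    have z3 : (a - b) * (C * τ ^ 0 * 0 + C * σ ^ 0 * 0 + C * σ ^ 0 * (C * τ ^ 0))
        + b * σ * (C * τ ^ 0 * 0) - a * τ * (C * σ ^ 0 * 0) = (a - b) * (C * C) := by
      ring
    rw [z3]
    exact mul_nonneg (by linarith) (by positivity)
  · have hXY : σ ^ K * k' ≤ τ ^ K * g' := by
      rw [hg', hk']
      simp only [G]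
      rw [Finset.mul_sum, Finset.mul_sum]
      refine Finset.sum_le_sum fun u hu => ?_
      have hu' : u ≤ K := Nat.lt_succ_iff.mp (Finset.mem_range.mp hu)
      obtain ⟨d, rfl⟩ := Nat.exists_eq_add_of_le hu'
      have h1 : σ ^ d ≤ τ ^ d := pow_le_pow_left₀ hσ0 hστ d
      have h2 : 0 ≤ ((h + u).choose u : ℝ) * (σ ^ u * τ ^ u) := by positivity
      calc σ ^ (u + d) * (((h + u).choose u : ℝ) * τ ^ u)
          = ((h + u).choose u : ℝ) * (σ ^ u * τ ^ u) * σ ^ d := by rw [pow_add]; ring
        _ ≤ ((h + u).choose u : ℝ) * (σ ^ u * τ ^ u) * τ ^ d := mul_le_mul_of_nonneg_left h1 h2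
        _ = τ ^ (u + d) * (((h + u).choose u : ℝ) * σ ^ u) := by rw [pow_add]; ring
    set X := τ ^ K * g' with hX
    set Y := σ ^ K * k' with hY
    have hX0 : 0 ≤ X := by positivity
    have hY0 : 0 ≤ Y := by positivity
    have e8 : (a - b) * (C * τ ^ (K + 1) * g' + C * σ ^ (K + 1) * k'
          + C * σ ^ (K + 1) * (C * τ ^ (K + 1)))
        + b * σ * (C * τ ^ (K + 1) * g') - a * τ * (C * σ ^ (K + 1) * k')
        = (a - b) * (C * τ * X + C * σ * (1 - τ) * Y + C * σ ^ (K + 1) * (C * τ ^ (K + 1)))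
          + b * (C * σ * τ) * (X - Y) := by
      rw [hX, hY]; ring
    rw [e8]
    have h1 : 0 ≤ a - b := by linarith
    have h2 : 0 ≤ 1 - τ := by linarith
    have h3 : 0 ≤ X - Y := by linarith
    positivity

/-- starting against the mother is at least as good as starting against the son -/
lemma diff_nonneg {a b c : ℝ} (hb : 0 ≤ b) (hba : b ≤ a) (ha1 : a ≤ 1) (hc : 0 ≤ c)
    (hc2 : c ≤ 1 / 2) (N : ℕ) (hN : 1 ≤ N) :
    Acl b ((1 - b) * c) a ((1 - a) * (1 - c)) ((1 - b) * (1 - c)) ((1 - a) * c) (N + 1) N N N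
      ≤ Acl a ((1 - a) * (1 - c)) b ((1 - b) * c) ((1 - a) * c) ((1 - b) * (1 - c)) (N + 1) N N N
      := by
  set dS := (1 - a) * (1 - c) with hdS
  set dM := (1 - b) * c with hdM
  set σ := (1 - a) * c with hσ
  set τ := (1 - b) * (1 - c) with hτ
  have ha : 0 ≤ a := le_trans hb hba
  have hdS0 : 0 ≤ dS := mul_nonneg (by linarith) (by linarith)
  have hdM0 : 0 ≤ dM := mul_nonneg (by linarith) (by linarith)
  rw [← sub_nonneg]
  unfold Acl
  rw [← Finset.sum_sub_distrib]
  set D : ℕ → ℝ := fun j =>
    cf a dS b dM (N + j) j * G ((N + j + 1) / 2) ((N - j + 1) / 2) σ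
      * G ((N + j) / 2) ((N - j + 1) / 2) τ
    - cf b dM a dS (N + j) j * G ((N + j + 1) / 2) ((N - j + 1) / 2) τ
      * G ((N + j) / 2) ((N - j + 1) / 2) σ with hD
  have hpair : ∀ j, j < N → (N + j) % 2 = 1 → 0 ≤ D j + D (j + 1) := by
    intro j hj hodd
    obtain ⟨h, hh⟩ : ∃ h, N + j = 2 * h + 1 := ⟨(N + j) / 2, by omega⟩
    obtain ⟨K, hK⟩ : ∃ K, N - j = 2 * K + 1 := ⟨(N - j) / 2, by omega⟩
    obtain ⟨W, hW0, hW1, hW2⟩ := exists_W ha hdS0 hb hdM0 h
    have d1 : D j = W j * (a * G (h + 1) (K + 1) σ * G h (K + 1) τ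
        - b * G (h + 1) (K + 1) τ * G h (K + 1) σ) := by
      simp only [hD]
      rw [hh, hK, hW1, hW2]
      rw [show (2 * h + 1 + 1) / 2 = h + 1 by omega, show (2 * h + 1) / 2 = h by omega,
        show (2 * K + 1 + 1) / 2 = K + 1 by omega]
      ring
    have d2 : D (j + 1) = W j * ((b * dS - a * dM) * G (h + 1) K σ * G (h + 1) K τ) := by
      simp only [hD]
      have t1 : N + (j + 1) = 2 * h + 2 := by omega
      have t2 : N - (j + 1) = 2 * K := by omega
      rw [t1, t2]
      rw [show (2 * h + 2 + 1) / 2 = h + 1 by omega, show (2 * h + 2) / 2 = h + 1 by omega,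
        show (2 * K + 1) / 2 = K by omega]
      have c1 : cf a dS b dM (2 * h + 2) (j + 1) = a * (b * W (j + 1)) + dS * (b * W j) := by
        simp only [cf, hW2]
      have c2 : cf b dM a dS (2 * h + 2) (j + 1) = b * (a * W (j + 1)) + dM * (a * W j) := by
        simp only [cf, hW1]
      rw [c1, c2]
      ring
    rw [d1, d2, ← mul_add]
    exact mul_nonneg (hW0 j) (key hb hba ha1 hc hc2 h K)
  have hmain : ∀ n, n ≤ N + 1 → (N + n) % 2 = 1 → 0 ≤ ∑ j ∈ Finset.range n, D j := by
    intro n
    induction n using Nat.strong_induction_on with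
    | _ n ih =>
      intro hn hodd
      rcases n with _ | _ | n
      · simp
      · rw [Finset.sum_range_one]
        obtain ⟨h, hh⟩ : ∃ h, N = 2 * h + 2 := ⟨N / 2 - 1, by omega⟩
        have : D 0 = 0 := by
          simp only [hD]
          have t1 : N + 0 = 2 * h + 2 := by omega
          rw [t1]
          rw [show (2 * h + 2 + 1) / 2 = h + 1 by omega, show (2 * h + 2) / 2 = h + 1 by omega]
          rw [cf_even_zero (a := a) (dS := dS) (b := b) (dM := dM) h]
          ring
        rw [this]
      · rw [Finset.sum_range_succ, Finset.sum_range_succ, add_assoc]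
        exact add_nonneg (ih n (by omega) (by omega) (by omega))
          (hpair n (by omega) (by omega))
  exact hmain (N + 1) le_rfl (by omega)

/-- **Theorem.** For every `N ≥ 1` and all probabilities with `b ≤ a` and `c ≤ 1/2` (in particular
under the strength convention `a, b, c < 1/2`, `b ≤ a`), playing the mother first is optimal for the
father. -/
theorem result (N : ℕ) (hN : 1 ≤ N) (a b c : ℝ) (hb : 0 < b) (hba : b ≤ a) (ha : a < 1)
    (hc : 0 < c) (hc2 : c ≤ 1 / 2) :
    fatherProb N FS a b c ≤ fatherProb N FM a b c ∧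
    fatherProb N MS a b c ≤ fatherProb N FM a b c := by
  have ha0 : 0 ≤ a := by linarith
  have key1 : U a b c (3 * N) N N N FS ≤ U a b c (3 * N) N N N FM := by
    rw [(U_closed a b c N (3 * N) N N N (by omega) le_rfl le_rfl).1,
      (U_closed a b c N (3 * N) N N N (by omega) le_rfl le_rfl).2.1]
    exact diff_nonneg hb.le hba ha.le hc.le hc2 N hN
  have e1 : ∀ X, fatherProb N X a b c = U a b c (3 * N) N N N X := fun X =>
    sum_eq_U a b c (3 * N) N N N X
  rw [e1, e1, e1]
  refine ⟨key1, ?_⟩
  obtain ⟨M, rfl⟩ : ∃ M, N = M + 1 := ⟨N - 1, by omega⟩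
  rw [(U_closed a b c (M + 1) (3 * (M + 1)) (M + 1) (M + 1) (M + 1) (by omega) le_rfl
    le_rfl).2.2 (by omega)]
  simp only [Nat.add_sub_cancel]
  rw [← (U_closed a b c (M + 1) (3 * (M + 1)) (M + 1) M (M + 1) (by omega) (by omega) le_rfl).1,
    ← (U_closed a b c (M + 1) (3 * (M + 1)) (M + 1) (M + 1) M (by omega) le_rfl (by omega)).2.1]
  have m1 := U_mono_m ha0 ha.le hb.le (by linarith) hc.le (by linarith) (3 * (M + 1)) (M + 1) M
    (M + 1) FM
  have m2 := U_mono_s ha0 ha.le hb.le (by linarith) hc.le (by linarith) (3 * (M + 1)) (M + 1)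
    (M + 1) M FS
  have h1 : c * U a b c (3 * (M + 1)) (M + 1) M (M + 1) FM
      ≤ c * U a b c (3 * (M + 1)) (M + 1) (M + 1) (M + 1) FM :=
    mul_le_mul_of_nonneg_left m1 hc.le
  have h2 : (1 - c) * U a b c (3 * (M + 1)) (M + 1) (M + 1) M FS
      ≤ (1 - c) * U a b c (3 * (M + 1)) (M + 1) (M + 1) (M + 1) FM :=
    mul_le_mul_of_nonneg_left (m2.trans key1) (by linarith)
  linarith

end Pool.Agent.Results.MP_582e6d_pr.MotherFirst
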